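import Pool.Agent.X249.XC.Main

/-!
# Automorphism polytopes have exponential extension complexity

For a graph `G` with `n` vertices consider the convex hull of the permutation matrices of its
automorphisms. (Relaxations of the isomorphism problem, from the fractional isomorphisms of
Tinhofer to the Sherali-Adams hierarchy, are descriptions of polyhedra around such polytopes by
linear inequalities, possibly with additional variables.)

A `Lift G r ε` is a polyhedron given by `r` inequalities in a space of any dimension, together with
an affine map whose image contains all automorphisms and is contained in the convex hull of the
automorphisms up to an error of `ε` in each entry. The theorem: for every `n ≥ 8` there is a graph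
with `n` vertices such that `exp (√n / 91) ≤ r + 1` for all these polyhedra with `ε ≤ 1 / (3 n³)`. In
particular the extension complexity of the automorphism polytope is `2 ^ Ω(√n)`.

This contrasts with the fact that isomorphism and automorphisms are easy for these graphs: they
consist of gadgets with at most four equivalent vertices. So no linear programs of polynomial size
for the convex hulls of the isomorphisms exist, even if graph isomorphism is in P.

Proof. There is a pair of vertices for each bit `b i` (`i < k`), a pair for each sum
`b i + b j` modulo two, and four middle vertices that enforce the sums. The automorphism that
switches the pairs according to `b` has the value `(1 - |a ∩ b|)²` for an affine function depending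
on the set `a`, which is nonnegative for all automorphisms. By Farkas' lemma (Yannakakis'
factorization) a polyhedron yields nonnegative vectors `U a`, `S b` of length `r + 1` with the
scalar product `(1 - |a ∩ b|)² + 1 / 5`, and then `exp (k / 16) ≤ r + 1` by the information
theoretic argument of Braverman and Moitra (`Pool.Agent.H553R2.TSP.rb_bound`).
-/

set_option autoImplicit false

namespace Pool.Agent.Results.MP_f1a348_lc.AutomorphismPolytopes

open Pool.Agent.X249.XC

/-- **Automorphism polytopes have exponential extension complexity**, even approximately. -/
theorem result (n : ℕ) (hn : 8 ≤ n) : ∃ G : SimpleGraph (Fin n), ∀ (r : ℕ) (ε : ℝ),
    ε ≤ 1 / (3 * (n : ℝ) ^ 3) → Nonempty (Lift G r ε) → Real.exp (Real.sqrt n / 91) ≤ r + 1 :=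
  xc_fin hn

end Pool.Agent.Results.MP_f1a348_lc.AutomorphismPolytopes
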