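import Pool.Agent.X282.GI.Arith
import Pool.Agent.Y649.DG.Main
import Pool.Agent.Y649.DG.Gen

/-!
# Graph isomorphism: formulas with determinant gates

The input is a graph with `m` edges on `n` labelled vertices, given by the list of its edges. Is it
isomorphic to a fixed graph `H`?

A formula (`Fml`) is built from real constants, arbitrary real functions of one edge, and arbitrary
real functions of `w` words, where each word is a function of one edge with `m ^ c` values, by the
gates

* `pos`: is the value positive? (`1` or `0`),
* `sym`: any fan-in, any real function of the number of positive inputs,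
* `det`: the determinant of a real matrix of any order whose entries are formulas (sums and products
  are determinants of order two),
* `reg`: is the matrix over an arbitrary field `K`, of any order, whose entry `(a, b)` is `c' a b` or
  `c a b`, according to whether the formula `(a, b)` is positive or not, regular? (`1` or `0`).

The size is the number of the leaves which are not constants, plus the number of wires which lead to
gates `sym`. So constants and the orders of the matrices are free, and determinants and ranks of
matrices of any order, whose entries may be computed from the edges, cost nothing but their leaves.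
The formula accepts if its value is positive.

We show that for each `m ≥ 204` and `n ≥ 3 m / 2` there is a graph `H` (a star with four vertices,
paths with three vertices and isolated vertices) such that random formulas of size at most `s` with
error probability at most `1 / 3` which decide isomorphism with `H` need
`m ^ 3 ≤ 3 * 10 ^ 7 * c w ^ 3 log₂ m s ^ 2`, that is, size of order `m ^ (3 / 2)` up to a logarithm.

Proof. `Pool.Agent.X282.GI.Asks`: each edge can ask for about `m / 2` bits which are stored in the
others. The lower bound for formulas in which few leaves see an edge is that of the starting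
development `Pool.Agent.Y649.DG`.
-/

set_option autoImplicit false

namespace Pool.Agent.Results.MP_f1a348_lc.DeterminantGates

open Pool.Agent.TH697.Form (IsProb)
open Pool.Agent.TH697.Row (ApproximatesOn)
open Pool.Agent.X282.GI (graph isoTo)
open Pool.Agent.Y649.DG (Fml)

theorem result : ∀ m n : ℕ, 204 ≤ m → 3 * m ≤ 2 * n → ∃ H : SimpleGraph (Fin n),
    ∀ c w : ℕ, 1 ≤ c → 1 ≤ w → ∀ (Ω : Type) [Fintype Ω] (μ : Ω → ℝ), IsProb μ →
      ∀ (s : ℕ) (F : Ω → Fml (Fin m) (fun _ => Fin n × Fin n) w (m ^ c)),
        (∀ ω, (F ω).size ≤ s) →
        ApproximatesOn μ (fun ω => (F ω).accepts) (fun _ => True) (isoTo H) →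
        (m : ℝ) ^ 3 ≤ 30000000 * c * w ^ 3 * Real.logb 2 m * s ^ 2 := by
  intro m n hm hn
  obtain ⟨T, hT⟩ : ∃ T, T = (m - 1) / 2 := ⟨_, rfl⟩
  obtain ⟨ι⟩ := Pool.Agent.X282.GI.exists_emb m n T hm hT hn
  obtain ⟨h1, h2, h3, h4⟩ := Pool.Agent.X282.GI.arith_T m T hm hT
  refine ⟨Pool.Agent.X282.GI.target m ι ⟨0, by omega⟩, ?_⟩
  intro c w hc hw Ω _ μ hμ s F hs hF
  have hfin : (m : ℝ) ^ 3 * (2 : ℕ) ≤ 60000000 * c * w ^ 3 * Real.logb 2 m * s ^ 2 := by
    rcases Nat.lt_or_ge s (m ^ 2) with hsm | hsm
    swap
    · exact Pool.Agent.X282.LP.arith_s m 2 c w s (by omega) (by omega) hc hw hsm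
    have hM := Pool.Agent.X282.LP.arith_m m T s (by omega) h2 hsm
    have hL := Pool.Agent.X282.LP.arith_l m c w (by omega) hc hw
    have hq : 1 ≤ m ^ c := Nat.one_le_pow _ _ (by omega)
    apply Pool.Agent.X282.LP.arith_f m 2 c w s T (by omega) h1
    have h7 := Pool.Agent.Y649.DG.bound_sq Pool.Agent.Y649.DG.bound
      (D := fun _ : Fin m => Fin n × Fin n) μ hμ F (fun _ => True) _ hF s hs
      hq hw T (m ^ 5) hM 0 (by norm_num)
      (Finset.univ : Finset (Fin m)) (T := Fin T)
      (fun i _ => Pool.Agent.X282.GI.asks h3 ι ⟨0, by omega⟩ i) (T : ℝ) (by exact_mod_cast h4)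
      (by rw [Fintype.card_fin])
      (26 * c * w * Real.logb 2 (m : ℝ)) hL
    rw [Finset.card_univ, Fintype.card_fin] at h7
    exact h7
  push_cast at hfin
  linarith

end Pool.Agent.Results.MP_f1a348_lc.DeterminantGates
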