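import Pool.Agent.TH658.Sos.Grp

/-!
# Algebraic and semialgebraic proofs of the non-isomorphism of groups need degree of order `log n`

Group isomorphism, for groups of order `n` given by their multiplication tables, reduces to graph
isomorphism by passing to the Latin square graphs of the tables, and it is decided in time
`n ^ O(log n)`; it is a barrier to placing graph isomorphism in P. The usual system of polynomial
equations for the isomorphisms of two graphs `X`, `Y` has a variable `x (u, v)` for each vertex `u` of
`X` and `v` of `Y`. We show that for every odd prime `p` and every `d ≥ 1` there are two
non-isomorphic groups of the same order `n = p ^ r`, `r ≤ 2022 d` (of exponent `p`, with commutators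
in a central subgroup of order `p ^ 6`), with non-isomorphic Latin square graphs, such that

* for every field `K` of characteristic different from `p`, the polynomial calculus over `K` has no
  refutation of degree `d` of the system of equations of these graphs; and
* the Positivstellensatz calculus (which contains the sum-of-squares proofs, that is, the Lasserre
  hierarchy of semidefinite relaxations) has no refutation of degree `d` either.

So the methods which search for proofs of degree `o(log n)` over a field of characteristic
different from `p`, or over the reals with squares, fail for groups of order `n`. For the
Weisfeiler-Leman algorithm and the invertible-map test the same groups are used in the results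
`GroupWLDimension` and `InvertibleMapGroups`; those two results do not imply the present one.

Idea of the proof. Linear maps `Z : A → B` which solve the equations `Z x y - Z y x = f x y` on small
subspaces of `A` move the table of one group to that of the other. The average of the indicator of
`u ↦ v` over the local solutions defines a linear functional on the polynomials of degree `d`
with values in `K` (the number of the local solutions is a power of `p`, which is invertible in
`K`), and the characters of the group of the linear maps show that it is nonnegative on squares if
`K` is the field of real numbers.
-/

set_option autoImplicit false

namespace Pool.Agent.Results.MP_f1a348_lc.GroupProofDegree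

open Pool.Agent.TH658.Sos Pool.Agent.W185.LSQ Pool.Agent.W879.GW

/-- For every odd prime `p` and every `d ≥ 1` there are non-isomorphic groups `G`, `H` of order
`p ^ r`, `r ≤ 2022 d`, of exponent `p` and with commutators in a central subgroup of order `p ^ 6`,
whose Latin square graphs are not isomorphic, although neither the polynomial calculus over any
field of characteristic different from `p` nor the Positivstellensatz calculus refutes their
isomorphism in degree `d`. -/
theorem result (p : ℕ) (hp : p.Prime) (hp2 : p ≠ 2) (d : ℕ) (hd : 1 ≤ d) :
    ∃ (G H : Type) (_ : Group G) (_ : Group H) (_ : Fintype G) (_ : Fintype H) (r : ℕ),
      r ≤ 2022 * d ∧ Fintype.card G = p ^ r ∧ Fintype.card H = p ^ r ∧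
      ExpClassTwo p G ∧ ExpClassTwo p H ∧ IsEmpty (G ≃* H) ∧
      IsEmpty (latinGraph (fun a b : G => a * b) ≃g latinGraph (fun a b : H => a * b)) ∧
      (∀ (K : Type) [Field K], (p : K) ≠ 0 → ¬ PCRefutes K (latinGraph fun a b : G => a * b)
        (latinGraph fun a b : H => a * b) d) ∧
      ¬ PosRefutes (latinGraph fun a b : G => a * b) (latinGraph fun a b : H => a * b) d :=
  mainGroups p hp hp2 d hd

end Pool.Agent.Results.MP_f1a348_lc.GroupProofDegree
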