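import Pool.Agent.X249.PD.Thr

/-!
# The degree of polynomials for graph isomorphism

We consider real polynomials in the adjacency bits of two graphs `G`, `H` with `n` vertices
(`val p x` is the value of the polynomial `p` at the vector `x` of truth values, and `pairBits G H`
are the bits of the two graphs).

(1) The number of isomorphisms is approximated with error at most `1 / 3`, for all `G` and `H`, by
a polynomial of degree at most `5 n ^ (3/2) log n`. So the number of isomorphisms is the value of
this polynomial, rounded to the next integer; in particular `G` and `H` are isomorphic if and only
if the value is greater than `1 / 2`: graph isomorphism is a polynomial threshold function of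
degree `n ^ (3/2 + o(1))`.

(2) Without rounding the degree is `n (n - 1)`, the number of the variables: each polynomial that
vanishes for all non-isomorphic pairs and is positive for all isomorphic pairs has at least this
degree. (This applies to the characteristic function of the set of isomorphic pairs and to the
number of isomorphisms. So graph isomorphism is evasive, and exact quantum algorithms have to read
at least `n (n - 1) / 2` bits.)

(3) The threshold degree is at least `n / 2`: a polynomial that is positive exactly for the
isomorphic pairs has degree at least `⌊n / 2⌋`.

Proof. (1) A combination of a Chebyshev polynomial and linear factors is `1` at `N = n (n - 1) / 2`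
and less than `1 / (3 n!)` at `0, ..., N - 1`; insert the number of the pairs on which a bijection
preserves adjacency and sum over all bijections. (2) The sum of `± p` over all pairs of graphs, the
sign being the parity of the number of edges of both graphs, is zero if the degree is less than
`n (n - 1)`, but isomorphic pairs have an even number of edges. (3) The twisted double coverings
of a cycle of length `n / 2` are isomorphic if and only if the parities of their numbers of twists
agree.
-/

set_option autoImplicit false

namespace Pool.Agent.Results.MP_f1a348_lc.PolynomialDegree

open Pool.Agent.X249.PD Pool.Agent.X249.GI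

/-- **The degree of polynomials for graph isomorphism.** -/
theorem result :
    (∀ n : ℕ, 4 ≤ n → ∃ F : MvPolynomial (Bool × Sym2 (Fin n)) ℝ,
      (F.totalDegree : ℝ) ≤ 5 * (n : ℝ) ^ (3 / 2 : ℝ) * Real.log n ∧
      ∀ G H : SimpleGraph (Fin n), |val F (pairBits G H) - Nat.card (G ≃g H)| ≤ 1 / 3) ∧
    (∀ (n : ℕ) (p : MvPolynomial (Bool × Sym2 (Fin n)) ℝ),
      (∀ G H : SimpleGraph (Fin n), ¬ Nonempty (G ≃g H) → val p (pairBits G H) = 0) →
      (∀ G H : SimpleGraph (Fin n), Nonempty (G ≃g H) → 0 < val p (pairBits G H)) →
      n * (n - 1) ≤ p.totalDegree) ∧
    (∀ n : ℕ, 6 ≤ n → ∀ p : MvPolynomial (Bool × Sym2 (Fin n)) ℝ,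
      (∀ G H : SimpleGraph (Fin n), 0 < val p (pairBits G H) ↔ Nonempty (G ≃g H)) →
      n / 2 ≤ p.totalDegree) :=
  ⟨fun _ hn => upper hn, fun _ p h0 h1 => exact_degree p h0 h1,
    fun _ hn p hp => threshold_degree hn p hp⟩

end Pool.Agent.Results.MP_f1a348_lc.PolynomialDegree
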